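import Pool.Agent.Lib.MP_7d7b85_al.Univ

namespace Pool.Agent.Results.MP_7d7b85_al.Centre

universe u

/-- A `p`-group with an element `a` of order `p` generating a finite subgroup with each of its
conjugates and commuting with finitely many of them has a nontrivial centre. -/
theorem result (p : ℕ) (hp : p.Prime) (G : Type u) [Group G] (hG : IsPGroup p G) (a : G)
    (ha : orderOf a = p)
    (h1 : ∀ g : G, Finite (Subgroup.closure ({a, g⁻¹ * a * g} : Set G)))
    (h2 : ((Subgroup.centralizer ({a} : Set G) : Set G) ∩ {x : G | ∃ g : G, x = g⁻¹ * a * g}).Finite) :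
    Subgroup.center G ≠ ⊥ := by
  refine Pool.Agent.Lib.MP_7d7b85_al.center_ne_bot_univ p hp G hG a ha
    (fun g => Set.finite_coe_iff.1 (h1 g)) (h2.subset ?_)
  rintro x ⟨hx, hc⟩
  obtain ⟨g, rfl⟩ := isConj_iff.1 hc
  exact ⟨Subgroup.mem_centralizer_singleton_iff.2 hx, g⁻¹, by simp⟩

end Pool.Agent.Results.MP_7d7b85_al.Centre
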