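import Pool.Agent.Lib.MP_7d7b85_al.Exam

namespace Pool.Agent.Results.MP_7d7b85_al.SmallHypercentre

open Pool.Agent.Lib.MP_7d7b85_al in
/-- For odd `p` an example with centre of order `p`, centreless central quotient, and infinite
normal closure of exponent `p`. -/
theorem result (p : ℕ) (hp : p.Prime) (hodd : p ≠ 2) :
    ∃ (G : Type) (_ : Group G) (a : G), IsPGroup p G ∧ orderOf a = p ∧
      (∀ g : G, Finite (Subgroup.closure ({a, g⁻¹ * a * g} : Set G))) ∧
      ((Subgroup.centralizer ({a} : Set G) : Set G) ∩ {x : G | ∃ g : G, x = g⁻¹ * a * g}).Finite ∧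
      Nat.card (Subgroup.center G) = p ∧ Subgroup.center (G ⧸ Subgroup.center G) = ⊥ ∧
      Infinite (Subgroup.normalClosure ({a} : Set G)) ∧
      ∀ x ∈ Subgroup.normalClosure ({a} : Set G), x ^ p = 1 := by
  have : OddP p := ⟨hp, hodd⟩
  obtain ⟨h1, h2, h3, h4, h5, h6⟩ := example_thm (p := p)
  exact ⟨Ex p, inferInstance, eA p, h1, h2, h3, h4, example_center.1, example_center.2, h5, h6⟩

end Pool.Agent.Results.MP_7d7b85_al.SmallHypercentre
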