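import Pool.Agent.Lib.MP_7d7b85_al.Struct

namespace Pool.Agent.Results.MP_7d7b85_al.Structure

open Pool.Agent.Lib.MP_7d7b85_al in
/-- For odd `p` the normal closure `N` of the special element has a divisible abelian subgroup `B`,
normal in `G`, with `N / B` nilpotent of finite exponent, such that the normal closure in `N` of
each element is finite modulo `B` and meets `B` in a group of finite rank. -/
theorem result (p : ℕ) (hp : p.Prime) (hodd : p ≠ 2) (G : Type) [Group G] (hG : IsPGroup p G)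
    (a : G) (ha : orderOf a = p)
    (h1 : ∀ g : G, Finite (Subgroup.closure ({a, g⁻¹ * a * g} : Set G)))
    (h2 : ((Subgroup.centralizer ({a} : Set G) : Set G) ∩ {x : G | ∃ g : G, x = g⁻¹ * a * g}).Finite)
    (N : Subgroup G) (hN : N = Subgroup.normalClosure ({a} : Set G)) :
    ∃ B : Subgroup G, B.Normal ∧ B ≤ N ∧ (∀ x ∈ B, ∀ y ∈ B, x * y = y * x) ∧
      (∀ x ∈ B, ∃ y ∈ B, y ^ p = x) ∧
      (∃ c : ℕ, N.lowerCentralSeries c ≤ B ∧ ∀ x ∈ N, x ^ p ^ c ∈ B) ∧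
      ∀ x ∈ N, ∀ M : Subgroup G, M = Subgroup.closure {y : G | ∃ g ∈ N, y = g⁻¹ * x * g} →
        B.relIndex M ≠ 0 ∧ {u : G | u ∈ B ∧ u ∈ M ∧ u ^ p = 1}.Finite := by
  have H := st_hyp hp hodd hG (a := a) (by rw [← ha, pow_orderOf_eq_one])
    (fun g => Set.finite_coe_iff.1 (h1 g)) (h2.subset (by
      rintro x ⟨hx, hc⟩
      obtain ⟨g, rfl⟩ := isConj_iff.1 hc
      exact ⟨Subgroup.mem_centralizer_singleton_iff.2 hx, g⁻¹, by simp⟩))
  obtain ⟨-, B, r1, r2, r3, r4, r5, r6⟩ := structure_thm H N hN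
  refine ⟨B, r1, r2, r3, r4, r5, fun x hx M hM => ?_⟩
  subst hM
  exact ⟨(r6 x hx).1, (r6 x hx).2.subset fun u hu => ⟨⟨hu.1, hu.2.1⟩, hu.2.2⟩⟩

end Pool.Agent.Results.MP_7d7b85_al.Structure
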